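import Pool.Agent.TH344.PW.Stm
import Pool.Agent.TH344.JG.Cmb

/-!
# PW-CMB: the unlinked sets and the vectors, for a graph with edge weights
-/

set_option autoImplicit false
set_option linter.unusedSectionVars false

namespace Pool.Agent.Y978.PW

open Finset Pool.Agent.TH344.JG Pool.Agent.TH344.JG.CmbV Pool.Agent.TH344.PW

section

variable {V : Type} [Fintype V] [DecidableEq V]

/-- the number of the indices of a class -/
def uM {k m : ℕ} {P : (Fin k → Bool) → (Fin k → Bool) → Bool} (U : Finset (IV V k P × Fin m))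
    (c : V) : ℕ :=
  (U.filter (fun i => i.1.1.1 = c)).card

theorem uM_le {k m : ℕ} {P : (Fin k → Bool) → (Fin k → Bool) → Bool}
    (U : Finset (IV V k P × Fin m)) (c : V) : uM U c ≤ uV (U.image Prod.fst) c * m := by
  have h1 : U.filter (fun i => i.1.1.1 = c) ⊆
      ((U.image Prod.fst).filter (fun i => i.1.1 = c)) ×ˢ (univ : Finset (Fin m)) := by
    intro i hi
    rw [mem_filter] at hi
    rw [mem_product, mem_filter]
    exact ⟨⟨mem_image_of_mem _ hi.1, hi.2⟩, mem_univ _⟩
  have h2 := card_le_card h1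
  rw [card_product, card_univ, Fintype.card_fin] at h2
  exact h2

theorem sum_clsM {k m : ℕ} {P : (Fin k → Bool) → (Fin k → Bool) → Bool}
    (U : Finset (IV V k P × Fin m)) (t : V → ℝ) :
    ∑ i ∈ U, 1 / (2 ^ k * (m : ℝ)) * t i.1.1.1 =
      ∑ c, (uM U c : ℝ) / (2 ^ k * (m : ℝ)) * t c := by
  rw [← Finset.sum_fiberwise U (fun i => i.1.1.1)]
  apply Finset.sum_congr rfl
  intro c _
  have h1 : ∀ i ∈ U.filter (fun i => i.1.1.1 = c), (1 / (2 ^ k * (m : ℝ)) : ℝ) * t i.1.1.1 =
      1 / (2 ^ k * (m : ℝ)) * t c := by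
    intro i hi
    rw [(Finset.mem_filter.1 hi).2]
  rw [Finset.sum_congr rfl h1, Finset.sum_const, nsmul_eq_mul]
  unfold uM
  ring

/-- products of numbers at most one -/
theorem all_one (α : V → ℝ) (h0 : ∀ c, 0 < α c) (h1 : ∀ c, α c ≤ 1) (h : 1 ≤ ∏ c, α c) :
    ∀ c, α c = 1 := by
  by_contra hcon
  push Not at hcon
  obtain ⟨c, hc⟩ := hcon
  have h2 : ∏ c, α c < ∏ _c : V, (1 : ℝ) :=
    Finset.prod_lt_prod (fun c _ => h0 c) (fun c _ => h1 c)
      ⟨c, mem_univ c, lt_of_le_of_ne (h1 c) hc⟩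
  rw [Finset.prod_const_one] at h2
  linarith

/-- the weighted inequality: if the products over the edges are at most one then the product is at
most one, with equality for constants only -/
theorem prod_lt {ad : V → V → Bool} {a : V → V → ℝ} (hasym : ∀ c c', a c c' = a c' c)
    (hpos : ∀ c c', ad c c' = true → 0 < a c c') (hzero : ∀ c c', ad c c' = false → a c c' = 0)
    (hrow : ∀ c, ∑ c', a c c' = 1)
    (htri : ∀ c, ∃ c' c'', ad c c' = true ∧ ad c c'' = true ∧ ad c' c'' = true)
    (p : V → ℝ) (h0 : ∀ c, 0 < p c) (hp : ∀ c c', ad c c' = true → p c * p c' ≤ 1)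
    (h : 1 ≤ ∏ c, p c) : ∀ c, p c = 1 := by
  set l : V → ℝ := fun c => Real.log (p c) with hl
  have hS : 0 ≤ ∑ c, l c := by
    rw [hl, ← Real.log_prod (fun c _ => (h0 c).ne')]
    exact Real.log_nonneg h
  have hterm : ∀ c c', a c c' * (l c + l c') ≤ 0 := by
    intro c c'
    rcases hb : ad c c' with _ | _
    · rw [hzero c c' hb, zero_mul]
    · have h1 : l c + l c' ≤ 0 := by
        rw [hl]
        simp only
        rw [← Real.log_mul (h0 c).ne' (h0 c').ne']
        exact Real.log_nonpos (mul_nonneg (h0 c).le (h0 c').le) (hp c c' hb)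
      exact mul_nonpos_of_nonneg_of_nonpos (hpos c c' hb).le h1
  have hsum : ∑ c, ∑ c', a c c' * (l c + l c') = 2 * ∑ c, l c := by
    have e1 : ∑ c, ∑ c', a c c' * l c = ∑ c, l c := by
      refine sum_congr rfl fun c _ => ?_
      rw [← sum_mul, hrow c, one_mul]
    have e2 : ∑ c, ∑ c', a c c' * l c' = ∑ c, l c := by
      rw [sum_comm]
      refine sum_congr rfl fun c _ => ?_
      rw [← sum_mul, sum_congr rfl fun c' _ => hasym c' c, hrow c, one_mul]
    calc ∑ c, ∑ c', a c c' * (l c + l c') =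
        ∑ c, ∑ c', (a c c' * l c + a c c' * l c') := by
          refine sum_congr rfl fun c _ => sum_congr rfl fun c' _ => by ring
      _ = 2 * ∑ c, l c := by
          rw [sum_congr rfl fun c _ => sum_add_distrib, sum_add_distrib, e1, e2]
          ring
  have heq : ∀ c c', a c c' * (l c + l c') = 0 := by
    have h1 : ∑ c, ∑ c', a c c' * (l c + l c') = 0 :=
      le_antisymm (sum_nonpos fun c _ => sum_nonpos fun c' _ => hterm c c') (by linarith)
    have h2 := (sum_eq_zero_iff_of_nonpos (fun c _ => sum_nonpos fun c' _ => hterm c c')).1 h1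
    intro c c'
    exact (sum_eq_zero_iff_of_nonpos (fun c' _ => hterm c c')).1 (h2 c (mem_univ c)) c'
      (mem_univ c')
  have hone : ∀ c c', ad c c' = true → p c * p c' = 1 := by
    intro c c' hb
    have h1 : l c + l c' = 0 := by
      rcases mul_eq_zero.1 (heq c c') with h1 | h1
      · exact absurd h1 (hpos c c' hb).ne'
      · exact h1
    have h2 : Real.log (p c * p c') = 0 := by
      rw [Real.log_mul (h0 c).ne' (h0 c').ne']
      exact h1
    exact Real.eq_one_of_pos_of_log_eq_zero (mul_pos (h0 c) (h0 c')) h2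
  intro c
  obtain ⟨c', c'', h1, h2, h3⟩ := htri c
  have e1 := hone c c' h1
  have e2 := hone c c'' h2
  have e3 := hone c' c'' h3
  have e4 : p c' = p c'' := mul_left_cancel₀ (h0 c).ne' (e1.trans e2.symm)
  rw [← e4] at e3
  have e5 : p c' = 1 := by
    have h4 := h0 c'
    nlinarith
  rw [e5, mul_one] at e1
  exact e1

end

theorem cmbb : S_CMBB := by
  classical
  intro V _ _ _ ad a k m hk hm hirr hsym hasym hpos hzero hrow htri
  have h4 : (4 : ℝ) ^ k = 2 ^ k * 2 ^ k := by rw [← mul_pow]; norm_num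
  have hM : (0 : ℝ) < 2 ^ k := by positivity
  have hmR : (0 : ℝ) < m := by exact_mod_cast hm
  have hMm : (0 : ℝ) < 2 ^ k * (m : ℝ) := by positivity
  -- the products of the classes
  have hprod : ∀ U : Finset (IV V k (fun _ _ => true) × Fin m),
      (∀ i ∈ U, ∀ j ∈ U, LV ad i.1 j.1 = LV ad j.1 i.1) →
      (∃ c, uM U c ≠ 2 ^ k * m) → ∏ c, ((uM U c : ℝ) / (2 ^ k * (m : ℝ))) < 1 := by
    intro U hU hne
    by_contra hcon
    push Not at hcon
    have hα0 : ∀ c, 0 < (uM U c : ℝ) / (2 ^ k * (m : ℝ)) := by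
      intro c
      have h1 : ∏ c, ((uM U c : ℝ) / (2 ^ k * (m : ℝ))) ≠ 0 := by linarith
      exact lt_of_le_of_ne (by positivity)
        (Finset.prod_ne_zero_iff.1 h1 c (mem_univ c)).symm
    have hαp : ∀ c, (uM U c : ℝ) / (2 ^ k * (m : ℝ)) ≤ (uV (U.image Prod.fst) c : ℝ) / 2 ^ k := by
      intro c
      rw [div_le_div_iff₀ hMm hM]
      have h1 : (uM U c : ℝ) ≤ uV (U.image Prod.fst) c * m := by exact_mod_cast uM_le U c
      calc (uM U c : ℝ) * 2 ^ k ≤ (uV (U.image Prod.fst) c * m) * 2 ^ k :=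
            mul_le_mul_of_nonneg_right h1 hM.le
        _ = _ := by ring
    have hp0 : ∀ c, 0 < (uV (U.image Prod.fst) c : ℝ) / 2 ^ k :=
      fun c => lt_of_lt_of_le (hα0 c) (hαp c)
    have hunl : ∀ i ∈ U.image Prod.fst, ∀ j ∈ U.image Prod.fst, LV ad i j = LV ad j i := by
      intro i hi j hj
      obtain ⟨i', hi', rfl⟩ := mem_image.1 hi
      obtain ⟨j', hj', rfl⟩ := mem_image.1 hj
      exact hU i' hi' j' hj'
    have hpp : ∀ c c', ad c c' = true →
        (uV (U.image Prod.fst) c : ℝ) / 2 ^ k * ((uV (U.image Prod.fst) c' : ℝ) / 2 ^ k) ≤ 1 := by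
      intro c c' hcc
      have h1 : (uV (U.image Prod.fst) c : ℝ) * uV (U.image Prod.fst) c' ≤ 4 ^ k := by
        exact_mod_cast uV_le hsym (U.image Prod.fst) hunl c c' hcc
      rw [div_mul_div_comm, div_le_one (by positivity), ← h4]
      exact h1
    have h1 := prod_lt hasym hpos hzero hrow htri _ hp0 hpp
      (hcon.trans (prod_le_prod (fun c _ => (hα0 c).le) fun c _ => hαp c))
    have h2 := all_one _ hα0 (fun c => (hαp c).trans (h1 c).le) hcon
    obtain ⟨c, hc⟩ := hne
    apply hc
    have h3 := h2 c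
    rw [div_eq_one_iff_eq hMm.ne'] at h3
    exact_mod_cast h3
  have hex : ∀ U : Finset (IV V k (fun _ _ => true) × Fin m), ∃ t : V → ℝ, (∀ j, 0 < t j) ∧
      1 < ∏ j, t j ∧ ((∀ i ∈ U, ∀ j ∈ U, LV ad i.1 j.1 = LV ad j.1 i.1) →
        (∃ c, uM U c ≠ 2 ^ k * m) →
        ∑ i ∈ U, 1 / (2 ^ k * (m : ℝ)) * t i.1.1.1 < Fintype.card V) := by
    intro U
    by_cases h : (∀ i ∈ U, ∀ j ∈ U, LV ad i.1 j.1 = LV ad j.1 i.1) ∧ ∃ c, uM U c ≠ 2 ^ k * m
    · obtain ⟨t, ht1, ht2, ht3⟩ := exists_tV (fun c => (uM U c : ℝ) / (2 ^ k * (m : ℝ)))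
        (fun c => by positivity) (hprod U h.1 h.2)
      refine ⟨t, ht1, ht2, fun _ _ => ?_⟩
      rw [sum_clsM]
      exact ht3
    · refine ⟨fun _ => 2, fun _ => by norm_num, ?_, fun h1 h2 => ?_⟩
      · rw [Finset.prod_const, Finset.card_univ]
        exact one_lt_pow₀ (by norm_num) Fintype.card_ne_zero
      · exact absurd ⟨h1, h2⟩ h
  choose t ht1 ht2 ht3 using hex
  refine ⟨Finset.univ.image t, ?_, ?_, ?_⟩
  · intro s hs j
    obtain ⟨U, _, rfl⟩ := Finset.mem_image.1 hs
    exact ht1 U j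
  · intro s hs
    obtain ⟨U, _, rfl⟩ := Finset.mem_image.1 hs
    exact ht2 U
  · intro U hU
    by_cases hne : ∃ c, uM U c ≠ 2 ^ k * m
    · left
      exact ⟨t U, Finset.mem_image_of_mem t (mem_univ U), ht3 U hU hne⟩
    · right
      push Not at hne
      have hcls : ∀ s : V → ℝ, ∑ i ∈ U, 1 / (2 ^ k * (m : ℝ)) * s i.1.1.1 = ∑ c, s c := by
        intro s
        rw [sum_clsM]
        apply Finset.sum_congr rfl
        intro c _
        rw [hne c]
        push_cast
        rw [div_self hMm.ne', one_mul]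
      refine ⟨?_, ?_, ?_⟩
      · have h5 := hcls (fun _ => 1)
        simp only [mul_one] at h5
        rw [h5]
        simp
      · intro s hs
        obtain ⟨W, _, rfl⟩ := Finset.mem_image.1 hs
        obtain ⟨θ, hθ, hlt⟩ := exists_thetaV (t W) (ht1 W) (ht2 W)
        refine ⟨θ, hθ, ?_⟩
        rw [hcls (fun c => t W c ^ (-θ))]
        exact hlt
      · intro j hj
        by_contra hcon
        push Not at hcon
        have hunl : ∀ i ∈ insert j U, ∀ i' ∈ insert j U, LV ad i.1 i'.1 = LV ad i'.1 i.1 := by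
          intro i hi i' hi'
          rcases mem_insert.1 hi with h1 | h1
          · rcases mem_insert.1 hi' with h2 | h2
            · rw [h1, h2]
            · rw [h1]
              exact (hcon i' h2).symm
          · rcases mem_insert.1 hi' with h2 | h2
            · rw [h2]
              exact hcon i h1
            · exact hU i h1 i' h2
        have hge : ∀ c, 2 ^ k * m ≤ uM (insert j U) c := by
          intro c
          rw [← hne c]
          exact card_le_card (filter_subset_filter _ (subset_insert _ _))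
        have hj1 : uM (insert j U) j.1.1.1 = 2 ^ k * m + 1 := by
          rw [← hne j.1.1.1]
          unfold uM
          rw [filter_insert, if_pos rfl, card_insert_of_notMem]
          intro h7
          exact hj (mem_filter.1 h7).1
        have h6 := hprod (insert j U) hunl ⟨j.1.1.1, by rw [hj1]; omega⟩
        have h7 : (1 : ℝ) ≤ ∏ c, ((uM (insert j U) c : ℝ) / (2 ^ k * (m : ℝ))) := by
          have h8 : ∏ _c : V, (1 : ℝ) ≤ ∏ c, ((uM (insert j U) c : ℝ) / (2 ^ k * (m : ℝ))) := by
            refine prod_le_prod (fun _ _ => zero_le_one) fun c _ => ?_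
            rw [le_div_iff₀ hMm, one_mul]
            exact_mod_cast hge c
          rwa [prod_const_one] at h8
        linarith

end Pool.Agent.Y978.PW
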